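import Pool.Agent.Helper70.HS.Stmts

/-! Sticky Kakeya sets, Hausdorff form: modules LEV, PIG, NUM (dyadic contents). -/

namespace Pool.Agent.Helper11.HS.LEVPIG

open Finset
open Pool.Agent.Helper69.RK (CH cel Yt ht Sys mass)
open Pool.Agent.Helper70.HS

/-- the cells of level `n` in `G` weigh at most the whole family -/
theorem card_le_wQ {m : ℕ} (σ : ℝ) (Q : Set (ℕ × (Fin m → ℤ))) (n : ℕ) (G : Finset (Fin m → ℤ))
    (hG : ∀ q ∈ G, (n, q) ∈ Q) : (G.card : ENNReal) * ENNReal.ofReal ((2 : ℝ) ^ (-(σ * (n : ℝ)))) ≤ wQ σ Q := by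
  have hinj : Function.Injective (fun q : G => (⟨(n, q.1), hG q.1 q.2⟩ : Q)) := by
    intro a b h
    have h1 := congrArg (fun z : Q => z.1.2) h
    exact Subtype.ext h1
  have h := ENNReal.tsum_comp_le_tsum_of_injective hinj
    (fun p : Q => ENNReal.ofReal ((2 : ℝ) ^ (-(σ * (p.1.1 : ℝ)))))
  have h2 : ∑' q : G, (fun p : Q => ENNReal.ofReal ((2 : ℝ) ^ (-(σ * (p.1.1 : ℝ))))) (⟨(n, q.1), hG q.1 q.2⟩ : Q)
      = (G.card : ENNReal) * ENNReal.ofReal ((2 : ℝ) ^ (-(σ * (n : ℝ)))) := by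
    rw [tsum_fintype]
    simp
  rw [h2] at h
  exact h

theorem card_real_le {m : ℕ} (d : ℝ) (Q : Set (ℕ × (Fin m → ℤ))) (hQ : wQ d Q ≤ 1) (n : ℕ)
    (G : Finset (Fin m → ℤ)) (hG : ∀ q ∈ G, (n, q) ∈ Q) : (G.card : ℝ) ≤ (2 : ℝ) ^ (d * n) := by
  have h := (card_le_wQ d Q n G hG).trans hQ
  have hpos : (0 : ℝ) < (2 : ℝ) ^ (-(d * (n : ℝ))) := Real.rpow_pos_of_pos two_pos _
  have h1 : ENNReal.ofReal ((G.card : ℝ) * (2 : ℝ) ^ (-(d * (n : ℝ)))) ≤ ENNReal.ofReal 1 := by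
    rw [ENNReal.ofReal_mul (Nat.cast_nonneg _), ENNReal.ofReal_natCast, ENNReal.ofReal_one]
    exact h
  have h2 : (G.card : ℝ) * (2 : ℝ) ^ (-(d * (n : ℝ))) ≤ 1 := by
    rwa [ENNReal.ofReal_le_ofReal_iff zero_le_one] at h1
  have h3 : (2 : ℝ) ^ (-(d * (n : ℝ))) * (2 : ℝ) ^ (d * (n : ℝ)) = 1 := by
    rw [← Real.rpow_add two_pos]
    simp
  have h4 : (0 : ℝ) < (2 : ℝ) ^ (d * (n : ℝ)) := Real.rpow_pos_of_pos two_pos _
  calc (G.card : ℝ) = (G.card : ℝ) * (2 : ℝ) ^ (-(d * (n : ℝ))) * (2 : ℝ) ^ (d * (n : ℝ)) := by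
        rw [mul_assoc, h3, mul_one]
    _ ≤ 1 * (2 : ℝ) ^ (d * (n : ℝ)) := mul_le_mul_of_nonneg_right h2 h4.le
    _ = _ := one_mul _

theorem st_LEV : ST_LEV := by
  intro m d Q hQ n
  have hfin : {q : Fin m → ℤ | (n, q) ∈ Q}.Finite := by
    by_contra hinf
    have hinf' : {q : Fin m → ℤ | (n, q) ∈ Q}.Infinite := hinf
    obtain ⟨N, hN⟩ := exists_nat_gt ((2 : ℝ) ^ (d * (n : ℝ)))
    obtain ⟨G, hG1, hG2⟩ := hinf'.exists_subset_card_eq N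
    have := card_real_le d Q hQ n G (fun q hq => hG1 hq)
    rw [hG2] at this
    linarith
  refine ⟨hfin.toFinset, fun q => by simp, ?_⟩
  exact card_real_le d Q hQ n hfin.toFinset (fun q hq => by simpa using hq)

theorem st_PIG : ST_PIG := by
  intro m σ c X Y b hX hXY hb
  by_contra hcon
  push Not at hcon
  have h : ∀ j, ∃ Q : Set (ℕ × (Fin m → ℤ)), Cov Q (Y j) ∧ wQ σ Q < ENNReal.ofReal (b j) := by
    intro j
    have := hcon j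
    unfold Pool.Agent.Helper70.HS.Cont at this
    push Not at this
    exact this
  choose Q hQ1 hQ2 using h
  have hcov : Cov (⋃ j, Q j) X := by
    intro x hx
    obtain ⟨j, hj⟩ := Set.mem_iUnion.mp (hXY hx)
    obtain ⟨k, hk⟩ := hQ1 j x hj
    exact ⟨k, Set.mem_iUnion.mpr ⟨j, hk⟩⟩
  have h1 := hX _ hcov
  have h2 : wQ σ (⋃ j, Q j) ≤ ∑' j, wQ σ (Q j) := by
    unfold wQ
    exact ENNReal.tsum_iUnion_le_tsum
      (fun p : ℕ × (Fin m → ℤ) => ENNReal.ofReal ((2 : ℝ) ^ (-(σ * (p.1 : ℝ))))) Q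
  have h3 : ∑' j, wQ σ (Q j) ≤ ∑' j, ENNReal.ofReal (b j) := ENNReal.tsum_le_tsum fun j => (hQ2 j).le
  exact absurd (h1.trans (h2.trans h3)) (not_le.mpr hb)

theorem st_NUM : ST_NUM := by
  intro m σ c X n F hX hF
  classical
  have hcov : Cov ((fun q : Fin m → ℤ => (n, q)) '' (F : Set (Fin m → ℤ))) X := by
    intro x hx
    exact ⟨n, cel n x, hF x hx, rfl⟩
  have h1 := hX _ hcov
  have h2 : wQ σ ((fun q : Fin m → ℤ => (n, q)) '' (F : Set (Fin m → ℤ)))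
      = (F.card : ENNReal) * ENNReal.ofReal ((2 : ℝ) ^ (-(σ * (n : ℝ)))) := by
    have hinj : Function.Injective (fun q : Fin m → ℤ => (n, q)) := fun a b h => (Prod.mk.inj h).2
    unfold wQ
    rw [tsum_image (fun p : ℕ × (Fin m → ℤ) => ENNReal.ofReal ((2 : ℝ) ^ (-(σ * (p.1 : ℝ))))) hinj.injOn]
    have h5 : ∑' q : ((F : Set (Fin m → ℤ))), ENNReal.ofReal ((2 : ℝ) ^ (-(σ * (n : ℝ))))
      = ∑ q ∈ F, ENNReal.ofReal ((2 : ℝ) ^ (-(σ * (n : ℝ)))) :=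
      Finset.tsum_subtype' F (fun _ => ENNReal.ofReal ((2 : ℝ) ^ (-(σ * (n : ℝ)))))
    rw [h5, Finset.sum_const, nsmul_eq_mul]
  rw [h2] at h1
  have hpos : (0 : ℝ) < (2 : ℝ) ^ (-(σ * (n : ℝ))) := Real.rpow_pos_of_pos two_pos _
  have h3 : ENNReal.ofReal c ≤ ENNReal.ofReal ((F.card : ℝ) * (2 : ℝ) ^ (-(σ * (n : ℝ)))) := by
    rw [ENNReal.ofReal_mul (Nat.cast_nonneg _), ENNReal.ofReal_natCast]
    exact h1
  have h4 : c ≤ (F.card : ℝ) * (2 : ℝ) ^ (-(σ * (n : ℝ))) := by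
    rwa [ENNReal.ofReal_le_ofReal_iff (by positivity)] at h3
  have h5 : (2 : ℝ) ^ (-(σ * (n : ℝ))) * (2 : ℝ) ^ (σ * (n : ℝ)) = 1 := by
    rw [← Real.rpow_add two_pos]
    simp
  have h6 : (0 : ℝ) < (2 : ℝ) ^ (σ * (n : ℝ)) := Real.rpow_pos_of_pos two_pos _
  calc c * (2 : ℝ) ^ (σ * (n : ℝ)) ≤ ((F.card : ℝ) * (2 : ℝ) ^ (-(σ * (n : ℝ)))) * (2 : ℝ) ^ (σ * (n : ℝ)) :=
        mul_le_mul_of_nonneg_right h4 h6.le
    _ = F.card := by rw [mul_assoc, h5, mul_one]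

end Pool.Agent.Helper11.HS.LEVPIG
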